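import Mathlib
import Pool.Agent.Lib.MP_e2d58b_nt.VR.BtS
import Pool.Agent.Lib.PntAP.Main

/-!
# MP_372cb0_nt: reciprocal sums of `π(T(i))`, basic estimates
-/

set_option autoImplicit false

namespace MP372cb0

open Finset Filter Topology

/-- the `x`-th triangular number -/
def T (x : ℕ) : ℕ := x * (x + 1) / 2

/-- `π(T(i))` -/
def u (i : ℕ) : ℕ := Nat.primeCounting (T i)

/-- the sums of the problem -/
def S (j k : ℕ) : ℚ := ∑ i ∈ Finset.Icc j k, 1 / (u i : ℚ)

lemma two_T (x : ℕ) : 2 * T x = x * (x + 1) :=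
  Nat.mul_div_cancel' (Nat.even_mul_succ_self x).two_dvd

lemma T_mono : Monotone T := by
  intro a b h
  unfold T
  exact Nat.div_le_div_right (Nat.mul_le_mul h (by omega))

lemma u_mono : Monotone u := fun _ _ h => Nat.monotone_primeCounting (T_mono h)

lemma T_real (x : ℕ) : (T x : ℝ) = x * (x + 1) / 2 := by
  have h : ((2 * T x : ℕ) : ℝ) = ((x * (x + 1) : ℕ) : ℝ) := by rw [two_T]
  push_cast at h
  linarith

lemma u_pos {i : ℕ} (h : 2 ≤ i) : 0 < u i := by
  have h1 : u 2 ≤ u i := u_mono h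
  have h2 : 0 < u 2 := by
    unfold u T
    norm_num
    decide
  omega

/-- prime number theorem for `π` -/
lemma pnt : Tendsto (fun x : ℕ => (Nat.primeCounting x : ℝ) / ((x : ℝ) / Real.log x)) atTop
    (𝓝 1) := by
  have h := (Pool.Agent.Lib.PntAP.pi_ap (q := 1) (a := 1) isUnit_one).comp
    tendsto_natCast_atTop_atTop
  simp only [Nat.totient_one, Nat.cast_one, div_one] at h
  refine h.congr' ?_
  filter_upwards [eventually_gt_atTop 1] with x hx
  simp only [Function.comp_apply]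
  unfold Pool.Agent.Lib.PntAP.piAP
  rw [Nat.floor_natCast]
  have h1 : ((Finset.Icc 1 x).filter (fun p : ℕ => p.Prime ∧ (p : ZMod 1) = 1)).card =
      Nat.primeCounting x := by
    rw [Nat.primeCounting, Nat.primeCounting', Nat.count_eq_card_filter_range]
    congr 1
    ext p
    rw [Finset.mem_filter, Finset.mem_filter, Finset.mem_Icc, Finset.mem_range]
    constructor
    · rintro ⟨h1, h2, _⟩; exact ⟨by omega, h2⟩
    · rintro ⟨h1, h2⟩
      exact ⟨⟨h2.one_lt.le, by omega⟩, h2, Subsingleton.elim _ _⟩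
  rw [h1]
  rw [div_div_eq_mul_div]

/-- the size of `π(T(i))` -/
noncomputable def hh (i : ℕ) : ℝ := (i : ℝ) ^ 2 / (4 * Real.log i)

lemma tendsto_T : Tendsto T atTop atTop := by
  refine tendsto_atTop_mono (f := fun x => x) ?_ tendsto_id
  intro x
  have := two_T x
  nlinarith [Nat.zero_le x]

lemma log_T_div : Tendsto (fun i : ℕ => Real.log (T i) / Real.log i) atTop (𝓝 2) := by
  have hl : Tendsto (fun i : ℕ => Real.log (i : ℝ)) atTop atTop :=
    Real.tendsto_log_atTop.comp tendsto_natCast_atTop_atTop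
  have h2 : Tendsto (fun i : ℕ => Real.log (((i : ℝ) + 1) / (i : ℝ) / 2) / Real.log i) atTop
      (𝓝 0) := by
    have h3 : Tendsto (fun i : ℕ => ((i : ℝ) + 1) / (i : ℝ) / 2) atTop (𝓝 (1 / 2)) := by
      have h4 : Tendsto (fun i : ℕ => 1 / (i : ℝ)) atTop (𝓝 0) :=
        tendsto_one_div_atTop_nhds_zero_nat
      have h5 : Tendsto (fun i : ℕ => (1 + 1 / (i : ℝ)) / 2) atTop (𝓝 ((1 + 0) / 2)) :=
        (h4.const_add 1).div_const 2
      rw [add_zero] at h5
      refine h5.congr' ?_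
      filter_upwards [eventually_gt_atTop 0] with i hi
      have : (i : ℝ) ≠ 0 := by positivity
      field_simp
    have h6 : Tendsto (fun i : ℕ => Real.log (((i : ℝ) + 1) / (i : ℝ) / 2)) atTop
        (𝓝 (Real.log (1 / 2))) :=
      (Real.continuousAt_log (by norm_num)).tendsto.comp h3
    exact h6.div_atTop hl
  have h7 := h2.const_add 2
  rw [add_zero] at h7
  refine h7.congr' ?_
  filter_upwards [eventually_gt_atTop 1] with i hi
  have hi0 : (0 : ℝ) < i := by positivity
  have hl0 : 0 < Real.log (i : ℝ) := Real.log_pos (by exact_mod_cast hi)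
  have h8 : (T i : ℝ) = (i : ℝ) ^ 2 * (((i : ℝ) + 1) / (i : ℝ) / 2) := by
    rw [T_real]; field_simp
  rw [h8, Real.log_mul (by positivity) (by positivity), Real.log_pow]
  field_simp
  push_cast
  ring

/-- prime number theorem for `π(T(i))` -/
lemma u_asymp : Tendsto (fun i : ℕ => (u i : ℝ) / hh i) atTop (𝓝 1) := by
  have h1 := pnt.comp tendsto_T
  have h2 : Tendsto (fun i : ℕ => ((T i : ℝ) / Real.log (T i)) / hh i) atTop (𝓝 1) := by
    have h3 : Tendsto (fun i : ℕ => (2 * (1 + 1 / (i : ℝ))) / (Real.log (T i) / Real.log i)) atTop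
        (𝓝 ((2 * (1 + 0)) / 2)) :=
      ((tendsto_one_div_atTop_nhds_zero_nat.const_add 1).const_mul 2).div log_T_div (by norm_num)
    have h4 : ((2 : ℝ) * (1 + 0)) / 2 = 1 := by norm_num
    rw [h4] at h3
    refine h3.congr' ?_
    filter_upwards [eventually_gt_atTop 1] with i hi
    have hi0 : (0 : ℝ) < i := by positivity
    have hi1 : (1 : ℝ) < i := by exact_mod_cast hi
    have hl0 : 0 < Real.log (i : ℝ) := Real.log_pos hi1
    have hl1 : 0 < Real.log (T i : ℝ) := by
      apply Real.log_pos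
      rw [T_real]; nlinarith
    unfold hh
    rw [T_real] at hl1 ⊢
    field_simp
    ring
  have h5 := h1.mul h2
  rw [one_mul] at h5
  refine h5.congr' ?_
  filter_upwards [eventually_gt_atTop 1] with i hi
  have hi1 : (1 : ℝ) < i := by exact_mod_cast hi
  have hT : (1 : ℝ) < T i := by rw [T_real]; nlinarith
  have hl1 : 0 < Real.log (T i : ℝ) := Real.log_pos hT
  have hT0 : (0 : ℝ) < T i := by linarith
  simp only [Function.comp_apply]
  unfold u
  field_simp

lemma hh_pos {i : ℕ} (hi : 2 ≤ i) : 0 < hh i := by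
  unfold hh
  have hi1 : (1 : ℝ) < i := by exact_mod_cast hi
  have hl0 : 0 < Real.log (i : ℝ) := Real.log_pos hi1
  positivity

lemma u_bounds {ε : ℝ} (hε : 0 < ε) : ∃ N : ℕ, ∀ i : ℕ, N ≤ i →
    (1 - ε) * hh i ≤ u i ∧ (u i : ℝ) ≤ (1 + ε) * hh i := by
  have h1 := u_asymp.eventually (lt_mem_nhds (show (1 - ε : ℝ) < 1 by linarith))
  have h2 := u_asymp.eventually (gt_mem_nhds (show (1 : ℝ) < 1 + ε by linarith))
  obtain ⟨N, hN⟩ := eventually_atTop.1 (h1.and h2)
  refine ⟨max N 2, fun i hi => ?_⟩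
  obtain ⟨h3, h4⟩ := hN i (le_trans (le_max_left _ _) hi)
  have hp := hh_pos (le_trans (le_max_right _ _) hi)
  rw [lt_div_iff₀ hp] at h3
  rw [div_lt_iff₀ hp] at h4
  exact ⟨h3.le, h4.le⟩

/-- the tails are small -/
lemma tail_lt : ∃ N : ℕ, ∀ j : ℕ, N ≤ j → ∀ k : ℕ, S j k < 1 := by
  have hs : Summable (fun i : ℕ => 1 / (u i : ℝ)) := by
    obtain ⟨N, hN⟩ := u_bounds (ε := 1 / 2) (by norm_num)
    have h0 : Summable (fun i : ℕ => 16 * (i : ℝ) ^ (-(3 / 2) : ℝ)) :=
      (Real.summable_nat_rpow.2 (by norm_num)).mul_left 16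
    refine Summable.of_norm_bounded_eventually_nat h0 ?_
    filter_upwards [eventually_ge_atTop (max N 2)] with i hi
    have hi2 : 2 ≤ i := le_trans (le_max_right _ _) hi
    have hi1 : (1 : ℝ) < i := by exact_mod_cast hi2
    have hi0 : (0 : ℝ) < i := by linarith
    have hl0 : 0 < Real.log (i : ℝ) := Real.log_pos hi1
    obtain ⟨h3, _⟩ := hN i (le_trans (le_max_left _ _) hi)
    have hp := hh_pos hi2
    have hu : (0 : ℝ) < u i := by
      have : (0 : ℝ) < (1 - 1 / 2) * hh i := by positivity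
      linarith
    rw [Real.norm_of_nonneg (by positivity)]
    have h4 : Real.log (i : ℝ) ≤ (i : ℝ) ^ (1 / 2 : ℝ) / (1 / 2) :=
      Real.log_le_rpow_div hi0.le (by norm_num)
    have h5 : 1 / (u i : ℝ) ≤ 1 / ((1 - 1 / 2) * hh i) :=
      one_div_le_one_div_of_le (by positivity) h3
    have h6 : 1 / ((1 - 1 / 2) * hh i) = 8 * Real.log i / (i : ℝ) ^ 2 := by
      unfold hh; field_simp; norm_num
    have h7 : (i : ℝ) ^ (-(3 / 2) : ℝ) = (i : ℝ) ^ (1 / 2 : ℝ) / (i : ℝ) ^ 2 := by
      rw [← Real.rpow_natCast, ← Real.rpow_sub hi0]; norm_num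
    rw [h7]
    refine h5.trans ?_
    rw [h6, mul_div_assoc']
    apply div_le_div_of_nonneg_right _ (by positivity)
    linarith
  obtain ⟨s, hs⟩ := summable_iff_vanishing_norm.1 hs 1 one_pos
  refine ⟨s.sup id + 1, fun j hj k => ?_⟩
  have h1 := hs (Finset.Icc j k) (by
    rw [Finset.disjoint_left]
    intro x hx hxs
    rw [Finset.mem_Icc] at hx
    have := Finset.le_sup (f := id) hxs
    simp only [id_eq] at this
    omega)
  have h2 : (S j k : ℝ) = ∑ i ∈ Finset.Icc j k, 1 / (u i : ℝ) := by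
    unfold S; push_cast; rfl
  rw [← h2] at h1
  have h3 : (S j k : ℝ) < 1 := (le_abs_self _).trans_lt h1
  exact_mod_cast h3

end MP372cb0
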