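import Pool.Agent.Lib.MP_372cb0_nt.Bas

/-!
# MP_372cb0_nt: the Brun-Titchmarsh gap bound and the quadratic identity
-/

set_option autoImplicit false

namespace MP372cb0

open Finset Filter Topology

/-- Brun-Titchmarsh for triangular intervals -/
lemma gap_bound : ∃ C : ℝ, 1 ≤ C ∧ ∃ N : ℕ, 2 ≤ N ∧ ∀ c : ℕ, N ≤ c → ∀ n : ℕ, 4 * n ≤ c →
    ((u (c + n) : ℝ) - u c) ≤ C * n * c / Real.log c := by
  obtain ⟨C, Y0, hC, hY0, h⟩ := Pool.Agent.Lib.MP_e2d58b_nt.VR.bt_count
  refine ⟨max 1 (3 * C), le_max_left _ _, max 4 ⌈Y0⌉₊, by omega, fun c hc n hn => ?_⟩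
  have hc4 : 4 ≤ c := le_trans (le_max_left _ _) hc
  have hcY : Y0 ≤ c := (Nat.le_ceil _).trans (by exact_mod_cast (le_trans (le_max_right _ _) hc))
  have hc4' : (4 : ℝ) ≤ c := by exact_mod_cast hc4
  have hlc : 0 < Real.log (c : ℝ) := Real.log_pos (by linarith)
  rcases Nat.eq_zero_or_pos n with hn0 | hn0
  · subst hn0; simp
  have hn1 : (1 : ℝ) ≤ n := by exact_mod_cast hn0
  have hn4 : 4 * (n : ℝ) ≤ c := by exact_mod_cast hn
  set Y : ℝ := (T (c + n) : ℝ) - T c + 1 with hY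
  have hYe : Y = n * c + n * (n + 1) / 2 + 1 := by
    rw [hY, T_real, T_real]; push_cast; ring
  have hY1 : (c : ℝ) ≤ Y := by rw [hYe]; nlinarith
  have hY2 : Y ≤ T c := by
    rw [hYe, T_real]; nlinarith
  have hY3 : Y ≤ 3 * n * c := by
    rw [hYe]; nlinarith
  have h1 := h (T c) Y (hcY.trans hY1) hY2 1 le_rfl (by norm_num; linarith) 0
  simp only [Nat.totient_one, Nat.cast_one, one_mul] at h1
  have h2 : u (c + n) ≤ u c +
      ((Pool.Agent.Lib.MP_e2d58b_nt.VR.PR (T c) Y).filter (fun p => p ≡ 0 [MOD 1])).card := by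
    unfold u
    rw [Nat.primeCounting, Nat.primeCounting', Nat.count_eq_card_filter_range,
      Nat.primeCounting, Nat.primeCounting', Nat.count_eq_card_filter_range]
    refine (Finset.card_le_card (?_ : _ ⊆
      (Finset.range (T c + 1)).filter Nat.Prime ∪
      ((Pool.Agent.Lib.MP_e2d58b_nt.VR.PR (T c) Y).filter (fun p => p ≡ 0 [MOD 1])))).trans
      (Finset.card_union_le _ _)
    intro p hp
    rw [Finset.mem_filter, Finset.mem_range] at hp
    rw [Finset.mem_union]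
    by_cases hpc : p < T c + 1
    · left; rw [Finset.mem_filter, Finset.mem_range]; exact ⟨hpc, hp.2⟩
    · right
      rw [Finset.mem_filter, Pool.Agent.Lib.MP_e2d58b_nt.VR.mem_PR]
      refine ⟨⟨hp.2, ?_, ?_⟩, Nat.modEq_one⟩
      · exact_mod_cast (by omega : T c < p)
      · have : (p : ℝ) < T (c + n) + 1 := by exact_mod_cast hp.1
        rw [hY]; linarith
  have h3 : (u (c + n) : ℝ) - u c ≤ C * Y / Real.log Y := by
    have : (u (c + n) : ℝ) ≤ u c +
      (((Pool.Agent.Lib.MP_e2d58b_nt.VR.PR (T c) Y).filter (fun p => p ≡ 0 [MOD 1])).card : ℝ) := by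
      exact_mod_cast h2
    linarith
  refine h3.trans ?_
  have hlY : Real.log c ≤ Real.log Y := Real.log_le_log (by linarith) hY1
  rw [div_le_div_iff₀ (by linarith) hlc]
  have hYp : 0 ≤ Y := by linarith
  calc C * Y * Real.log c ≤ C * Y * Real.log Y := by
        apply mul_le_mul_of_nonneg_left hlY; positivity
    _ ≤ (max 1 (3 * C)) * n * c * Real.log Y := by
        apply mul_le_mul_of_nonneg_right _ (by linarith)
        calc C * Y ≤ C * (3 * n * c) := by gcongr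
          _ = (3 * C) * n * c := by ring
          _ ≤ (max 1 (3 * C)) * n * c := by gcongr; exact le_max_right _ _

/-- half the double sum of `(x_i - x_j)^2 / (x_i x_j)` -/
noncomputable def VV (x : ℕ → ℝ) (n : ℕ) : ℝ :=
  1 / 2 * ∑ i ∈ range n, ∑ j ∈ range n, (x i - x j) ^ 2 / (x i * x j)

lemma VV_id (x : ℕ → ℝ) (n : ℕ) (hx : ∀ i < n, 0 < x i) :
    (∑ i ∈ range n, x i) * (∑ i ∈ range n, 1 / x i) = (n : ℝ) ^ 2 + VV x n := by
  have h1 : ∀ i ∈ range n, ∀ j ∈ range n,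
      (x i - x j) ^ 2 / (x i * x j) = x i * (1 / x j) + x j * (1 / x i) - 2 := by
    intro i hi j hj
    have h2 := hx i (mem_range.1 hi)
    have h3 := hx j (mem_range.1 hj)
    field_simp
    ring
  unfold VV
  rw [Finset.sum_congr rfl (fun i hi => Finset.sum_congr rfl (h1 i hi))]
  simp only [Finset.sum_sub_distrib, Finset.sum_add_distrib, Finset.sum_const, card_range,
    nsmul_eq_mul]
  have h4 : ∑ i ∈ range n, ∑ j ∈ range n, x i * (1 / x j) =
      (∑ i ∈ range n, x i) * (∑ i ∈ range n, 1 / x i) := by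
    rw [Finset.sum_mul_sum]
  have h5 : ∑ i ∈ range n, ∑ j ∈ range n, x j * (1 / x i) =
      (∑ i ∈ range n, x i) * (∑ i ∈ range n, 1 / x i) := by
    rw [Finset.sum_comm, Finset.sum_mul_sum]
  rw [h4, h5]
  ring

lemma VV_nonneg (x : ℕ → ℝ) (n : ℕ) (hx : ∀ i < n, 0 < x i) : 0 ≤ VV x n := by
  unfold VV
  refine mul_nonneg (by norm_num) (Finset.sum_nonneg fun i hi => Finset.sum_nonneg fun j hj => ?_)
  have h2 := hx i (mem_range.1 hi)
  have h3 := hx j (mem_range.1 hj)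
  positivity

/-- upper bound of `VV` when all differences are at most `G` and all values at least `A` -/
lemma VV_le (x : ℕ → ℝ) (n : ℕ) (A G : ℝ) (hA : 0 < A) (hG : 0 ≤ G)
    (hx : ∀ i < n, A ≤ x i) (hd : ∀ i < n, ∀ j < n, |x i - x j| ≤ G) :
    VV x n ≤ (n : ℝ) ^ 2 / 2 * (G ^ 2 / A ^ 2) := by
  unfold VV
  have h1 : ∑ i ∈ range n, ∑ j ∈ range n, (x i - x j) ^ 2 / (x i * x j) ≤
      ∑ i ∈ range n, ∑ j ∈ range n, G ^ 2 / A ^ 2 := by
    refine Finset.sum_le_sum fun i hi => Finset.sum_le_sum fun j hj => ?_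
    have h2 := hx i (mem_range.1 hi)
    have h3 := hx j (mem_range.1 hj)
    have h4 := hd i (mem_range.1 hi) j (mem_range.1 hj)
    apply div_le_div₀ (by positivity)
    · rw [← sq_abs (x i - x j)]
      exact pow_le_pow_left₀ (abs_nonneg _) h4 2
    · positivity
    · rw [sq]; exact mul_le_mul h2 h3 hA.le (hA.le.trans h2)
  simp only [Finset.sum_const, card_range, nsmul_eq_mul] at h1
  nlinarith

/-- `VV = 0` forces equality -/
lemma VV_eq_zero (x : ℕ → ℝ) (n : ℕ) (hx : ∀ i < n, 0 < x i) (h : VV x n = 0) :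
    ∀ i < n, ∀ j < n, x i = x j := by
  intro i hi j hj
  unfold VV at h
  have hnn : ∀ i ∈ range n, ∀ j ∈ range n, 0 ≤ (x i - x j) ^ 2 / (x i * x j) := by
    intro i hi j hj
    have h2 := hx i (mem_range.1 hi)
    have h3 := hx j (mem_range.1 hj)
    positivity
  have h1 : ∑ i ∈ range n, ∑ j ∈ range n, (x i - x j) ^ 2 / (x i * x j) = 0 := by linarith
  have h2 := (Finset.sum_eq_zero_iff_of_nonneg
    (fun i hi => Finset.sum_nonneg (hnn i hi))).1 h1 i (mem_range.2 hi)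
  have h3 := (Finset.sum_eq_zero_iff_of_nonneg (hnn i (mem_range.2 hi))).1 h2 j (mem_range.2 hj)
  have h4 := hx i hi
  have h5 := hx j hj
  rw [div_eq_zero_iff] at h3
  rcases h3 with h3 | h3
  · have := pow_eq_zero_iff (two_ne_zero) |>.1 h3
    linarith
  · have : 0 < x i * x j := by positivity
    linarith

/-- the main bound: in a short block `P^2 VV` is smaller than the reciprocal sum -/
lemma block_bound : ∃ c0 : ℝ, 0 < c0 ∧ ∃ N : ℕ, 2 ≤ N ∧ ∀ c : ℕ, N ≤ c → ∀ n P : ℕ, 1 ≤ n →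
    1 ≤ P → ((P : ℝ) ^ 2 * (n : ℝ) ^ 3 ≤ c0 * Real.log c) →
    (P : ℝ) ^ 2 * VV (fun i => (u (c + i) : ℝ)) n < ∑ i ∈ range n, 1 / (u (c + i) : ℝ) := by
  obtain ⟨C, hC, N1, hN12, hgap⟩ := gap_bound
  obtain ⟨N2, hN2⟩ := u_bounds (ε := 1 / 2) (by norm_num)
  have hC0 : 0 < C := by linarith
  refine ⟨1 / (16 * C ^ 2), by positivity, max N1 (max N2 4), by omega, fun c hc n P hn hP hb => ?_⟩
  have hc1 : N1 ≤ c := le_trans (le_max_left _ _) hc
  have hc2 : N2 ≤ c := le_trans (le_trans (le_max_left _ _) (le_max_right _ _)) hc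
  have hc4 : 4 ≤ c := le_trans (le_trans (le_max_right _ _) (le_max_right _ _)) hc
  have hc4' : (4 : ℝ) ≤ c := by exact_mod_cast hc4
  have hc0 : (0 : ℝ) < c := by linarith
  have hlc : 0 < Real.log (c : ℝ) := Real.log_pos (by linarith)
  have hlcc : Real.log (c : ℝ) ≤ c := (Real.log_le_sub_one_of_pos hc0).trans (by linarith)
  have hn1 : (1 : ℝ) ≤ n := by exact_mod_cast hn
  have hP1 : (1 : ℝ) ≤ P := by exact_mod_cast hP
  set L := Real.log (c : ℝ) with hL
  have hb' : 16 * C ^ 2 * ((P : ℝ) ^ 2 * (n : ℝ) ^ 3) ≤ L := by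
    have := mul_le_mul_of_nonneg_left hb (show (0 : ℝ) ≤ 16 * C ^ 2 by positivity)
    have h2 : 16 * C ^ 2 * (1 / (16 * C ^ 2) * L) = L := by field_simp
    linarith
  have hn3 : (n : ℝ) ≤ (P : ℝ) ^ 2 * (n : ℝ) ^ 3 := by
    have h1 : (1 : ℝ) ≤ (P : ℝ) ^ 2 := one_le_pow₀ hP1
    have h2 : (n : ℝ) ≤ (n : ℝ) ^ 3 := le_self_pow₀ hn1 (by norm_num)
    nlinarith [pow_pos (show (0 : ℝ) < n by linarith) 3]
  have hCn : 16 * C * (n : ℝ) ≤ L := by
    have h1 : C ≤ C ^ 2 := le_self_pow₀ hC (by norm_num)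
    have h2 : 16 * C * (n : ℝ) ≤ 16 * C ^ 2 * ((P : ℝ) ^ 2 * (n : ℝ) ^ 3) := by
      apply mul_le_mul _ hn3 (by linarith) (by positivity)
      linarith
    linarith
  have hn16 : 16 * (n : ℝ) ≤ c := by nlinarith
  have hnc : 4 * n ≤ c := by
    have : 4 * (n : ℝ) ≤ c := by linarith
    exact_mod_cast this
  -- the gap
  set G : ℝ := C * n * c / L with hG
  have hG0 : 0 < G := by positivity
  have hux : ∀ i < n, (u c : ℝ) ≤ u (c + i) := by
    intro i _
    exact_mod_cast u_mono (Nat.le_add_right c i)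
  have hux' : ∀ i < n, (u (c + i) : ℝ) ≤ u c + G := by
    intro i hi
    have h1 := hgap c hc1 n hnc
    have h2 : (u (c + i) : ℝ) ≤ u (c + n) := by exact_mod_cast u_mono (by omega : c + i ≤ c + n)
    linarith
  obtain ⟨hlow, _⟩ := hN2 c hc2
  have hA : (c : ℝ) ^ 2 / (8 * L) ≤ u c := by
    have : (1 - 1 / 2) * hh c = (c : ℝ) ^ 2 / (8 * L) := by
      unfold hh; rw [← hL]; field_simp; norm_num
    linarith
  set A : ℝ := (u c : ℝ) with hAdef
  have hA0 : 0 < A := lt_of_lt_of_le (by positivity) hA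
  have hGA : G ≤ A := by
    refine le_trans ?_ hA
    rw [hG, div_le_div_iff₀ hlc (by positivity)]
    have : C * n * 8 ≤ c := by linarith
    calc C * n * c * (8 * L) = (C * n * 8) * (c * L) := by ring
      _ ≤ c * (c * L) := by apply mul_le_mul_of_nonneg_right this; positivity
      _ = (c : ℝ) ^ 2 * L := by ring
  have hV := VV_le (fun i => (u (c + i) : ℝ)) n A G hA0 hG0.le hux (by
    intro i hi j hj
    rw [abs_le]
    constructor
    · linarith [hux i hi, hux' j hj]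
    · linarith [hux' i hi, hux j hj])
  have hR : (n : ℝ) * (1 / (2 * A)) ≤ ∑ i ∈ range n, 1 / (u (c + i) : ℝ) := by
    have : ∑ i ∈ range n, (1 / (2 * A) : ℝ) ≤ ∑ i ∈ range n, 1 / (u (c + i) : ℝ) := by
      refine Finset.sum_le_sum fun i hi => ?_
      have h1 := hux i (mem_range.1 hi)
      have h2 := hux' i (mem_range.1 hi)
      apply one_div_le_one_div_of_le
      · exact hA0.trans_le h1
      · linarith
    simpa using this
  refine lt_of_le_of_lt (mul_le_mul_of_nonneg_left hV (by positivity)) (lt_of_lt_of_le ?_ hR)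
  -- `P² n² G² / (2A²) < n / (2A)` iff `P² n G² < A`
  have hkey : (P : ℝ) ^ 2 * n * G ^ 2 < A := by
    refine lt_of_lt_of_le ?_ hA
    rw [hG, lt_div_iff₀ (by positivity)]
    have : (P : ℝ) ^ 2 * n * (C * n * c / L) ^ 2 * (8 * L) =
        (16 * C ^ 2 * ((P : ℝ) ^ 2 * (n : ℝ) ^ 3)) * (c ^ 2 / (2 * L)) := by
      field_simp; ring
    rw [this]
    calc (16 * C ^ 2 * ((P : ℝ) ^ 2 * (n : ℝ) ^ 3)) * ((c : ℝ) ^ 2 / (2 * L))
        ≤ L * ((c : ℝ) ^ 2 / (2 * L)) := by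
          apply mul_le_mul_of_nonneg_right hb'; positivity
      _ = (c : ℝ) ^ 2 / 2 := by field_simp
      _ < (c : ℝ) ^ 2 := by
          have : 0 < (c : ℝ) ^ 2 := by positivity
          linarith
  have h8 : (P : ℝ) ^ 2 * ((n : ℝ) ^ 2 / 2 * (G ^ 2 / A ^ 2)) =
      ((P : ℝ) ^ 2 * n * G ^ 2) * (n / (2 * A ^ 2)) := by
    field_simp
  have h9 : (n : ℝ) * (1 / (2 * A)) = A * (n / (2 * A ^ 2)) := by
    field_simp
  rw [h8, h9]
  apply mul_lt_mul_of_pos_right hkey
  positivity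

end MP372cb0
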