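import Pool.Agent.Lib.MP_372cb0_nt.Red

/-!
# MP_372cb0_nt: a counterexample with short blocks contains an irregular triangular interval
-/

set_option autoImplicit false

namespace MP372cb0

open Finset Filter Topology

lemma sum_id (n : ℕ) : ∑ i ∈ range n, (i : ℝ) = n * (n - 1) / 2 := by
  induction n with
  | zero => simp
  | succ n ih => rw [Finset.sum_range_succ, ih]; push_cast; ring

lemma sum_sqs (n : ℕ) : ∑ i ∈ range n, (i : ℝ) ^ 2 = (n - 1) * n * (2 * n - 1) / 6 := by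
  induction n with
  | zero => simp
  | succ n ih => rw [Finset.sum_range_succ, ih]; push_cast; ring

lemma sum_diff_sq (n : ℕ) : ∑ i ∈ range n, ∑ j ∈ range n, ((i : ℝ) - j) ^ 2 =
    (n : ℝ) ^ 2 * ((n : ℝ) ^ 2 - 1) / 6 := by
  have h1 : ∀ i ∈ range n, ∑ j ∈ range n, ((i : ℝ) - j) ^ 2 =
      n * (i : ℝ) ^ 2 - 2 * i * (n * (n - 1) / 2) + (n - 1) * n * (2 * n - 1) / 6 := by
    intro i _
    have h2 : ∀ j ∈ range n, ((i : ℝ) - j) ^ 2 = (i : ℝ) ^ 2 - 2 * i * j + (j : ℝ) ^ 2 := by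
      intro j _; ring
    rw [Finset.sum_congr rfl h2, Finset.sum_add_distrib, Finset.sum_sub_distrib, ← Finset.mul_sum,
      sum_id, sum_sqs, Finset.sum_const, card_range, nsmul_eq_mul]
  rw [Finset.sum_congr rfl h1, Finset.sum_add_distrib, Finset.sum_sub_distrib, ← Finset.mul_sum,
    sum_sqs, Finset.sum_const, card_range, nsmul_eq_mul]
  have h3 : ∑ i ∈ range n, 2 * (i : ℝ) * (n * (n - 1) / 2) =
      (n * (n - 1)) * ∑ i ∈ range n, (i : ℝ) := by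
    rw [Finset.mul_sum]
    refine Finset.sum_congr rfl fun i _ => ?_
    ring
  rw [h3, sum_id]
  ring

lemma VV_upper (x : ℕ → ℝ) (n : ℕ) (A g : ℝ) (hA : 0 < A)
    (hx : ∀ i < n, A ≤ x i) (hd : ∀ i < n, ∀ j < n, |x i - x j| ≤ |(i : ℝ) - j| * g) :
    VV x n ≤ (g / A) ^ 2 * ((n : ℝ) ^ 2 * ((n : ℝ) ^ 2 - 1) / 12) := by
  unfold VV
  have h1 : ∑ i ∈ range n, ∑ j ∈ range n, (x i - x j) ^ 2 / (x i * x j) ≤
      ∑ i ∈ range n, ∑ j ∈ range n, ((i : ℝ) - j) ^ 2 * (g / A) ^ 2 := by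
    refine Finset.sum_le_sum fun i hi => Finset.sum_le_sum fun j hj => ?_
    have h2 := hx i (mem_range.1 hi)
    have h3 := hx j (mem_range.1 hj)
    have h4 := hd i (mem_range.1 hi) j (mem_range.1 hj)
    have h5 : (x i - x j) ^ 2 ≤ (((i : ℝ) - j) ^ 2 * g ^ 2) := by
      rw [← sq_abs (x i - x j), ← sq_abs ((i : ℝ) - j), ← mul_pow]
      exact pow_le_pow_left₀ (abs_nonneg _) h4 2
    have h6 : ((i : ℝ) - j) ^ 2 * (g / A) ^ 2 = (((i : ℝ) - j) ^ 2 * g ^ 2) / A ^ 2 := by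
      rw [div_pow]; ring
    rw [h6]
    apply div_le_div₀ (by positivity) h5 (by positivity)
    rw [sq]; exact mul_le_mul h2 h3 hA.le (hA.le.trans h2)
  simp only [← Finset.sum_mul] at h1
  rw [sum_diff_sq] at h1
  linarith

lemma VV_lower (x : ℕ → ℝ) (n : ℕ) (B g : ℝ) (hg : 0 ≤ g)
    (hx : ∀ i < n, 0 < x i) (hxB : ∀ i < n, x i ≤ B)
    (hd : ∀ i < n, ∀ j < n, |(i : ℝ) - j| * g ≤ |x i - x j|) :
    (g / B) ^ 2 * ((n : ℝ) ^ 2 * ((n : ℝ) ^ 2 - 1) / 12) ≤ VV x n := by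
  unfold VV
  have h1 : ∑ i ∈ range n, ∑ j ∈ range n, ((i : ℝ) - j) ^ 2 * (g / B) ^ 2 ≤
      ∑ i ∈ range n, ∑ j ∈ range n, (x i - x j) ^ 2 / (x i * x j) := by
    refine Finset.sum_le_sum fun i hi => Finset.sum_le_sum fun j hj => ?_
    have h2 := hx i (mem_range.1 hi)
    have h3 := hx j (mem_range.1 hj)
    have h2' := hxB i (mem_range.1 hi)
    have h3' := hxB j (mem_range.1 hj)
    have h4 := hd i (mem_range.1 hi) j (mem_range.1 hj)
    have h5 : (((i : ℝ) - j) ^ 2 * g ^ 2) ≤ (x i - x j) ^ 2 := by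
      rw [← sq_abs (x i - x j), ← sq_abs ((i : ℝ) - j), ← mul_pow]
      exact pow_le_pow_left₀ (by positivity) h4 2
    have h6 : ((i : ℝ) - j) ^ 2 * (g / B) ^ 2 = (((i : ℝ) - j) ^ 2 * g ^ 2) / B ^ 2 := by
      rw [div_pow]; ring
    rw [h6]
    apply div_le_div₀ (by positivity) h5 (by positivity)
    rw [sq]; exact mul_le_mul h2' h3' h3.le (h2.le.trans h2')
  simp only [← Finset.sum_mul] at h1
  rw [sum_diff_sq] at h1
  linarith

/-- consecutive gaps at least `g` -/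
lemma diff_ge (c n : ℕ) (g : ℝ) (h : ∀ i, i + 1 < n → g ≤ (u (c + i + 1) : ℝ) - u (c + i)) :
    ∀ i < n, ∀ j < n, |(i : ℝ) - j| * g ≤ |(u (c + i) : ℝ) - u (c + j)| := by
  have key : ∀ i d : ℕ, i + d < n → (d : ℝ) * g ≤ (u (c + (i + d)) : ℝ) - u (c + i) := by
    intro i d
    induction d with
    | zero => intro _; simp
    | succ d ih =>
      intro hd
      have h1 := ih (by omega)
      have h2 := h (i + d) (by omega)
      have e1 : c + (i + (d + 1)) = c + (i + d) + 1 := by ring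
      rw [e1]
      push_cast
      linarith
  intro i hi j hj
  rcases le_total i j with hij | hij
  · obtain ⟨d, rfl⟩ := Nat.exists_eq_add_of_le hij
    have h1 := key i d hj
    have h2 : (u (c + i) : ℝ) ≤ u (c + (i + d)) := by exact_mod_cast u_mono (by omega)
    rw [abs_sub_comm (i : ℝ), abs_sub_comm (u (c + i) : ℝ),
      abs_of_nonneg (a := (u (c + (i + d)) : ℝ) - u (c + i)) (by linarith)]
    push_cast
    rw [add_sub_cancel_left, abs_of_nonneg (by positivity)]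
    exact h1
  · obtain ⟨d, rfl⟩ := Nat.exists_eq_add_of_le hij
    have h1 := key j d hi
    have h2 : (u (c + j) : ℝ) ≤ u (c + (j + d)) := by exact_mod_cast u_mono (by omega)
    rw [abs_of_nonneg (a := (u (c + (j + d)) : ℝ) - u (c + j)) (by linarith)]
    push_cast
    rw [add_sub_cancel_left, abs_of_nonneg (by positivity)]
    exact h1

/-- consecutive gaps at most `g` -/
lemma diff_le (c n : ℕ) (g : ℝ) (h : ∀ i, i + 1 < n → (u (c + i + 1) : ℝ) - u (c + i) ≤ g) :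
    ∀ i < n, ∀ j < n, |(u (c + i) : ℝ) - u (c + j)| ≤ |(i : ℝ) - j| * g := by
  have key : ∀ i d : ℕ, i + d < n → (u (c + (i + d)) : ℝ) - u (c + i) ≤ (d : ℝ) * g := by
    intro i d
    induction d with
    | zero => intro _; simp
    | succ d ih =>
      intro hd
      have h1 := ih (by omega)
      have h2 := h (i + d) (by omega)
      have e1 : c + (i + (d + 1)) = c + (i + d) + 1 := by ring
      rw [e1]
      push_cast
      linarith
  intro i hi j hj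
  rcases le_total i j with hij | hij
  · obtain ⟨d, rfl⟩ := Nat.exists_eq_add_of_le hij
    have h1 := key i d hj
    have h2 : (u (c + i) : ℝ) ≤ u (c + (i + d)) := by exact_mod_cast u_mono (by omega)
    rw [abs_sub_comm (u (c + i) : ℝ), abs_sub_comm (i : ℝ),
      abs_of_nonneg (a := (u (c + (i + d)) : ℝ) - u (c + i)) (by linarith)]
    push_cast
    rw [add_sub_cancel_left, abs_of_nonneg (by positivity)]
    exact h1
  · obtain ⟨d, rfl⟩ := Nat.exists_eq_add_of_le hij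
    have h1 := key j d hi
    have h2 : (u (c + j) : ℝ) ≤ u (c + (j + d)) := by exact_mod_cast u_mono (by omega)
    rw [abs_of_nonneg (a := (u (c + (j + d)) : ℝ) - u (c + j)) (by linarith)]
    push_cast
    rw [add_sub_cancel_left, abs_of_nonneg (by positivity)]
    exact h1

/-- expected number of primes in `(T(i), T(i+1)]` -/
noncomputable def rr (i : ℕ) : ℝ := (i : ℝ) / (2 * Real.log i)

lemma exp_one_lt_three : Real.exp 1 < 3 := by
  have := Real.exp_one_lt_d9; linarith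

lemma rr_mono {i j : ℕ} (hi : 3 ≤ i) (hij : i ≤ j) : rr i ≤ rr j := by
  have hi' : (3 : ℝ) ≤ i := by exact_mod_cast hi
  have hij' : (i : ℝ) ≤ j := by exact_mod_cast hij
  have h1 := Real.log_div_self_antitoneOn (a := (i : ℝ)) (b := (j : ℝ))
    (by change Real.exp 1 ≤ (i : ℝ); linarith [exp_one_lt_three])
    (by change Real.exp 1 ≤ (j : ℝ); linarith [exp_one_lt_three]) hij'
  have l1 : 0 < Real.log (i : ℝ) := Real.log_pos (by linarith)
  have l2 : 0 < Real.log (j : ℝ) := Real.log_pos (by linarith)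
  rw [div_le_div_iff₀ (by linarith) (by linarith)] at h1
  unfold rr
  rw [div_le_div_iff₀ (by positivity) (by positivity)]
  linarith

lemma rr_div_hh {i : ℕ} (hi : 3 ≤ i) : rr i / hh i = 2 / i := by
  have hi' : (3 : ℝ) ≤ i := by exact_mod_cast hi
  have l1 : 0 < Real.log (i : ℝ) := Real.log_pos (by linarith)
  unfold rr hh
  have : (0 : ℝ) < i := by linarith
  field_simp
  norm_num

lemma hh_ge {a b : ℕ} (ha : 3 ≤ a) (hab : a ≤ b) : (b : ℝ) / a * hh a ≤ hh b := by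
  have h1 := rr_mono ha hab
  have ha' : (3 : ℝ) ≤ a := by exact_mod_cast ha
  have hab' : (a : ℝ) ≤ b := by exact_mod_cast hab
  have l1 : 0 < Real.log (a : ℝ) := Real.log_pos (by linarith)
  have l2 : 0 < Real.log (b : ℝ) := Real.log_pos (by linarith)
  have e1 : (b : ℝ) / a * hh a = (b : ℝ) / 2 * rr a := by
    unfold hh rr; field_simp; norm_num
  have e2 : hh b = (b : ℝ) / 2 * rr b := by
    unfold hh rr; field_simp; norm_num
  rw [e1, e2]
  exact mul_le_mul_of_nonneg_left h1 (by linarith)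

lemma shift_bounds {ε : ℝ} (hε : 0 < ε) (hε1 : ε ≤ 1) (M : ℕ) : ∃ N : ℕ, 3 ≤ N ∧ ∀ a i : ℕ, N ≤ a →
    i ≤ M → hh (a + i) ≤ (1 + ε) * hh a ∧ rr (a + i) ≤ (1 + ε) * rr a := by
  refine ⟨max 3 ⌈3 * M / ε⌉₊, le_max_left _ _, fun a i ha hi => ?_⟩
  have ha3 : 3 ≤ a := le_trans (le_max_left _ _) ha
  have ha' : (3 : ℝ) ≤ a := by exact_mod_cast ha3
  have haM : 3 * (M : ℝ) / ε ≤ a :=
    (Nat.le_ceil _).trans (by exact_mod_cast (le_trans (le_max_right _ _) ha))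
  rw [div_le_iff₀ hε] at haM
  have hi' : (i : ℝ) ≤ M := by exact_mod_cast hi
  have hi0 : (0 : ℝ) ≤ i := Nat.cast_nonneg _
  have hie : 3 * (i : ℝ) ≤ a * ε := by linarith
  have l1 : 0 < Real.log (a : ℝ) := Real.log_pos (by linarith)
  have l2 : Real.log (a : ℝ) ≤ Real.log ((a + i : ℕ) : ℝ) :=
    Real.log_le_log (by linarith) (by push_cast; linarith)
  constructor
  · unfold hh
    have h1 : (((a + i : ℕ) : ℝ)) ^ 2 / (4 * Real.log ((a + i : ℕ) : ℝ)) ≤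
        (((a + i : ℕ) : ℝ)) ^ 2 / (4 * Real.log (a : ℝ)) := by
      apply div_le_div_of_nonneg_left (by positivity) (by positivity)
      linarith
    refine h1.trans ?_
    rw [mul_div_assoc']
    apply div_le_div_of_nonneg_right _ (by positivity)
    push_cast
    have h2 : (i : ℝ) ≤ a * ε / 3 := by linarith
    have h3 : (i : ℝ) ^ 2 ≤ (a * ε / 3) ^ 2 := pow_le_pow_left₀ hi0 h2 2
    have h4 : 2 * (a : ℝ) * i ≤ 2 * a * (a * ε / 3) := by gcongr
    have h5 : (a : ℝ) ^ 2 * (ε * ε) ≤ (a : ℝ) ^ 2 * (ε * 1) := by gcongr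
    nlinarith only [h3, h4, h5, mul_nonneg (sq_nonneg (a : ℝ)) hε.le]
  · unfold rr
    have h1 : (((a + i : ℕ) : ℝ)) / (2 * Real.log ((a + i : ℕ) : ℝ)) ≤
        (((a + i : ℕ) : ℝ)) / (2 * Real.log (a : ℝ)) := by
      apply div_le_div_of_nonneg_left (by positivity) (by positivity)
      linarith
    refine h1.trans ?_
    rw [mul_div_assoc']
    apply div_le_div_of_nonneg_right _ (by positivity)
    push_cast
    linarith

/-- choice of the small parameter -/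
lemma choose_eps (M : ℕ) (hM : 1 ≤ M) : ∃ ε : ℝ, 0 < ε ∧ ε ≤ 1 / 2 ∧
    (1 + 1 / (8 * (M : ℝ))) ^ 2 * (1 + ε) ^ 9 <
      (1 + 1 / (M : ℝ)) * (1 - 1 / (8 * (M : ℝ))) ^ 2 * (1 - ε) ^ 3 := by
  have hM1 : (1 : ℝ) ≤ M := by exact_mod_cast hM
  set f : ℝ → ℝ := fun ε => (1 + 1 / (M : ℝ)) * (1 - 1 / (8 * (M : ℝ))) ^ 2 * (1 - ε) ^ 3 -
    (1 + 1 / (8 * (M : ℝ))) ^ 2 * (1 + ε) ^ 9 with hf
  have hcont : Continuous f := by rw [hf]; fun_prop
  have h0 : 0 < f 0 := by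
    rw [hf]
    simp only [sub_zero, add_zero, one_pow, mul_one]
    have hM0 : (0 : ℝ) < M := by linarith
    have e1 : (1 + 1 / (M : ℝ)) * (1 - 1 / (8 * (M : ℝ))) ^ 2 - (1 + 1 / (8 * (M : ℝ))) ^ 2 =
        ((M + 1) * (8 * M - 1) ^ 2 - M * (8 * M + 1) ^ 2) / (64 * M ^ 3) := by
      field_simp
      ring
    rw [e1]
    apply div_pos _ (by positivity)
    nlinarith [mul_nonneg (sub_nonneg.2 hM1) (sub_nonneg.2 hM1)]
  have h1 : ∀ᶠ ε in 𝓝 (0 : ℝ), 0 < f ε := hcont.continuousAt.eventually (lt_mem_nhds h0)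
  have h2 : ∀ᶠ ε in 𝓝[>] (0 : ℝ), 0 < f ε := h1.filter_mono nhdsWithin_le_nhds
  have h3 : ∀ᶠ ε in 𝓝[>] (0 : ℝ), 0 < ε := self_mem_nhdsWithin
  have h4 : ∀ᶠ ε in 𝓝[>] (0 : ℝ), ε < 1 / 2 :=
    (gt_mem_nhds (show (0 : ℝ) < 1 / 2 by norm_num)).filter_mono nhdsWithin_le_nhds
  obtain ⟨ε, ⟨h5, h6⟩, h7⟩ := ((h2.and h3).and h4).exists
  refine ⟨ε, h6, h7.le, ?_⟩
  rw [hf] at h5
  simp only [] at h5
  linarith

/-- the irregularity theorem for two blocks of different lengths -/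
lemma irregular (M : ℕ) (hM : 1 ≤ M) : ∃ N : ℕ, 3 ≤ N ∧ ∀ a b l m : ℕ, N ≤ a → a + l ≤ b →
    1 ≤ l → l < m → m ≤ M →
    ∑ i ∈ range l, 1 / (u (a + i) : ℝ) = ∑ i ∈ range m, 1 / (u (b + i) : ℝ) →
    ∃ i : ℕ, ((a ≤ i ∧ i + 1 < a + l) ∨ (b ≤ i ∧ i + 1 < b + m)) ∧
      1 / (8 * (M : ℝ)) * rr i < |((u (i + 1) : ℝ) - u i) - rr i| := by
  obtain ⟨ε, hε, hε2, hch⟩ := choose_eps M hM
  obtain ⟨c0, hc0, N1, hN1, hrig⟩ := rigid
  obtain ⟨N2, hN2⟩ := u_bounds hε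
  obtain ⟨N3, hN3, hsh⟩ := shift_bounds hε (by linarith) M
  have hM1 : (1 : ℝ) ≤ M := by exact_mod_cast hM
  have hM0 : (0 : ℝ) < M := by linarith
  -- a large
  have hlogt : Tendsto (fun a : ℕ => Real.log (a : ℝ)) atTop atTop :=
    Real.tendsto_log_atTop.comp tendsto_natCast_atTop_atTop
  obtain ⟨N4, hN4⟩ := eventually_atTop.1 (hlogt.eventually_ge_atTop ((M : ℝ) ^ 5 / c0))
  obtain ⟨N5, hN5⟩ := eventually_atTop.1 (hlogt.eventually_ge_atTop (Real.log (8 * M) / ε))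
  refine ⟨max N1 (max N2 (max N3 (max N4 N5))), by omega, fun a b l m ha hab hl hlm hmM heq => ?_⟩
  have ha1 : N1 ≤ a := by omega
  have ha2 : N2 ≤ a := by omega
  have ha3 : N3 ≤ a := by omega
  have ha4 : N4 ≤ a := by omega
  have ha5 : N5 ≤ a := by omega
  have ha6 : 3 ≤ a := by omega
  have g4 := hN4 a ha4
  have g5 := hN5 a ha5
  have ha' : (3 : ℝ) ≤ a := by exact_mod_cast ha6
  have hab' : (a : ℝ) ≤ b := by exact_mod_cast (by omega : a ≤ b)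
  have hl1 : (1 : ℝ) ≤ l := by exact_mod_cast hl
  have hlm1 : (l : ℝ) + 1 ≤ m := by exact_mod_cast hlm
  have hmM' : (m : ℝ) ≤ M := by exact_mod_cast hmM
  set La := Real.log (a : ℝ) with hLa
  set Lb := Real.log (b : ℝ) with hLb
  have l1 : 0 < La := Real.log_pos (by linarith)
  have l2 : 0 < Lb := Real.log_pos (by linarith)
  by_contra hcon
  push Not at hcon
  set η : ℝ := 1 / (8 * (M : ℝ)) with hη
  have hη0 : 0 < η := by positivity
  have hη1 : η < 1 := by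
    rw [hη, div_lt_one (by positivity)]; linarith
  -- rigidity
  have hcond : (l : ℝ) ^ 2 * (m : ℝ) ^ 3 ≤ c0 * Real.log a := by
    rw [div_le_iff₀ hc0] at g4
    have : (l : ℝ) ^ 2 * (m : ℝ) ^ 3 ≤ (M : ℝ) ^ 2 * (M : ℝ) ^ 3 := by
      have : (l : ℝ) ≤ M := by linarith
      gcongr
    have e : (M : ℝ) ^ 2 * (M : ℝ) ^ 3 = (M : ℝ) ^ 5 := by ring
    linarith
  obtain ⟨_, hV⟩ := hrig a b l m ha1 (by omega) hl hlm.le hcond heq
  -- positivity
  have hha : 0 < hh a := hh_pos (by omega)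
  have hhb : 0 < hh b := hh_pos (by omega)
  have hra : 0 < rr a := by
    unfold rr; exact div_pos (by linarith only [ha']) (by linarith only [l1])
  have hrb : 0 < rr b := by
    unfold rr; exact div_pos (by linarith only [ha', hab']) (by linarith only [l2])
  -- block 2
  have hVb := VV_lower (fun i => (u (b + i) : ℝ)) m ((1 + ε) ^ 2 * hh b) ((1 - η) * rr b)
    (mul_nonneg (by linarith only [hη1]) hrb.le)
    (by intro i _
        change (0 : ℝ) < (u (b + i) : ℝ)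
        exact_mod_cast u_pos (by omega))
    (by intro i hi
        change (u (b + i) : ℝ) ≤ _
        have e1 := (hN2 (b + i) (by omega)).2
        have e2 := (hsh b i (by omega) (by omega)).1
        calc (u (b + i) : ℝ) ≤ (1 + ε) * hh (b + i) := e1
          _ ≤ (1 + ε) * ((1 + ε) * hh b) := by gcongr
          _ = (1 + ε) ^ 2 * hh b := by ring)
    (diff_ge b m ((1 - η) * rr b) (by
      intro i hi
      have e1 := hcon (b + i) (Or.inr ⟨by omega, by omega⟩)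
      rw [abs_le] at e1
      have e2 := rr_mono (i := b) (j := b + i) (by omega) (by omega)
      have e3 : (1 - η) * rr b ≤ (1 - η) * rr (b + i) :=
        mul_le_mul_of_nonneg_left e2 (by linarith)
      linarith [e1.1]))
  -- block 1
  have hVa := VV_upper (fun i => (u (a + i) : ℝ)) l ((1 - ε) * hh a) ((1 + η) * ((1 + ε) * rr a))
    (mul_pos (by linarith only [hε2]) hha)
    (by intro i _
        change _ ≤ (u (a + i) : ℝ)
        have e1 := (hN2 a ha2).1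
        have e2 : (u a : ℝ) ≤ u (a + i) := by exact_mod_cast u_mono (by omega)
        linarith)
    (diff_le a l ((1 + η) * ((1 + ε) * rr a)) (by
      intro i hi
      have e1 := hcon (a + i) (Or.inl ⟨by omega, by omega⟩)
      rw [abs_le] at e1
      have e2 := (hsh a i (by omega) (by omega)).2
      have e3 : (1 + η) * rr (a + i) ≤ (1 + η) * ((1 + ε) * rr a) :=
        mul_le_mul_of_nonneg_left e2 (by linarith)
      linarith [e1.2]))
  -- sizes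
  have hua : (0 : ℝ) < u (a + (l - 1)) := by exact_mod_cast u_pos (by omega)
  have hub : (0 : ℝ) < u b := by exact_mod_cast u_pos (by omega)
  have hs1 : (l : ℝ) * (1 / (u (a + (l - 1)) : ℝ)) ≤ ∑ i ∈ range l, 1 / (u (a + i) : ℝ) := by
    have : ∑ i ∈ range l, (1 / (u (a + (l - 1)) : ℝ)) ≤ ∑ i ∈ range l, 1 / (u (a + i) : ℝ) := by
      refine Finset.sum_le_sum fun i hi => ?_
      rw [mem_range] at hi
      apply one_div_le_one_div_of_le
      · exact_mod_cast u_pos (by omega)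
      · exact_mod_cast u_mono (by omega)
    simpa using this
  have hs2 : ∑ i ∈ range m, 1 / (u (b + i) : ℝ) ≤ (m : ℝ) * (1 / (u b : ℝ)) := by
    have : ∑ i ∈ range m, 1 / (u (b + i) : ℝ) ≤ ∑ i ∈ range m, (1 / (u b : ℝ)) := by
      refine Finset.sum_le_sum fun i _ => ?_
      apply one_div_le_one_div_of_le hub
      exact_mod_cast u_mono (by omega)
    simpa using this
  have hs3 : (l : ℝ) * u b ≤ m * u (a + (l - 1)) := by
    have : (l : ℝ) * (1 / (u (a + (l - 1)) : ℝ)) ≤ (m : ℝ) * (1 / (u b : ℝ)) := by linarith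
    rw [mul_one_div, mul_one_div, div_le_div_iff₀ hua hub] at this
    linarith
  have hs4 : (l : ℝ) * ((1 - ε) * hh b) ≤ m * ((1 + ε) ^ 2 * hh a) := by
    have e1 := (hN2 b (by omega)).1
    have e2 := (hN2 (a + (l - 1)) (by omega)).2
    have e3 := (hsh a (l - 1) (by omega) (by omega)).1
    have e4 : (u (a + (l - 1)) : ℝ) ≤ (1 + ε) ^ 2 * hh a := by
      calc (u (a + (l - 1)) : ℝ) ≤ (1 + ε) * hh (a + (l - 1)) := e2
        _ ≤ (1 + ε) * ((1 + ε) * hh a) := by gcongr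
        _ = (1 + ε) ^ 2 * hh a := by ring
    calc (l : ℝ) * ((1 - ε) * hh b) ≤ l * u b := by gcongr
      _ ≤ m * u (a + (l - 1)) := hs3
      _ ≤ m * ((1 + ε) ^ 2 * hh a) := by gcongr
  have hs5 : (b : ℝ) ≤ 8 * M * a := by
    have e1 := hh_ge (a := a) (b := b) ha6 (by omega)
    have e2 : (l : ℝ) * ((1 - ε) * ((b : ℝ) / a * hh a)) ≤ m * ((1 + ε) ^ 2 * hh a) := by
      refine le_trans ?_ hs4
      have : 0 ≤ 1 - ε := by linarith
      gcongr
    have e3 : ((l : ℝ) * (1 - ε) * ((b : ℝ) / a)) * hh a ≤ (m * (1 + ε) ^ 2) * hh a := by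
      linarith only [e2]
    have e4 := le_of_mul_le_mul_right e3 hha
    have e5 : (1 / 2 : ℝ) * ((b : ℝ) / a) ≤ (l : ℝ) * (1 - ε) * ((b : ℝ) / a) := by
      apply mul_le_mul_of_nonneg_right _ (by positivity)
      nlinarith only [hl1, hε2]
    have e6 : (m : ℝ) * (1 + ε) ^ 2 ≤ M * 4 := by
      have : (1 + ε) ^ 2 ≤ 4 := by nlinarith only [hε2, hε]
      have hm0 : (0 : ℝ) ≤ m := by linarith
      calc (m : ℝ) * (1 + ε) ^ 2 ≤ (M : ℝ) * (1 + ε) ^ 2 := by gcongr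
        _ ≤ (M : ℝ) * 4 := by gcongr
    have e7 : (b : ℝ) / a ≤ 8 * M := by linarith only [e4, e5, e6]
    rwa [div_le_iff₀ (by linarith)] at e7
  have hs6 : Lb ≤ (1 + ε) * La := by
    have e1 : Lb ≤ Real.log (8 * M * a) := Real.log_le_log (by linarith) hs5
    rw [Real.log_mul (by positivity) (by linarith)] at e1
    rw [div_le_iff₀ hε] at g5
    have : Real.log (a : ℝ) = La := rfl
    nlinarith only [e1, g5, this]
  have hs7 : (l : ℝ) * (1 - ε) * (b : ℝ) ^ 2 ≤ m * (1 + ε) ^ 3 * (a : ℝ) ^ 2 := by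
    have e1 : (l : ℝ) * (1 - ε) * (b : ℝ) ^ 2 = ((l : ℝ) * ((1 - ε) * hh b)) * (4 * Lb) := by
      unfold hh; rw [← hLb]; field_simp
    have e2 : m * (1 + ε) ^ 3 * (a : ℝ) ^ 2 = (m * ((1 + ε) ^ 2 * hh a)) * (4 * ((1 + ε) * La)) := by
      unfold hh; rw [← hLa]; field_simp
    rw [e1, e2]
    have hm0 : (0 : ℝ) ≤ m := by linarith
    apply mul_le_mul hs4 (by linarith) (by linarith) (by positivity)
  -- compare
  have ka : ((1 + η) * ((1 + ε) * rr a)) / ((1 - ε) * hh a) =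
      ((1 + η) * (1 + ε) / (1 - ε)) * (2 / a) := by
    rw [← rr_div_hh ha6]
    have : 1 - ε ≠ 0 := by linarith
    field_simp
  have kb : ((1 - η) * rr b) / ((1 + ε) ^ 2 * hh b) =
      ((1 - η) / (1 + ε) ^ 2) * (2 / b) := by
    rw [← rr_div_hh (i := b) (by omega)]
    have : 1 + ε ≠ 0 := by linarith
    field_simp
  rw [ka] at hVa
  rw [kb] at hVb
  have hm0 : (0 : ℝ) < m := by linarith
  have hl0 : (0 : ℝ) < l := by linarith
  have hb0 : (0 : ℝ) < b := by linarith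
  have ha0 : (0 : ℝ) < a := by linarith
  have hε3 : 0 < 1 - ε := by linarith
  have hε4 : 0 < 1 + ε := by linarith
  have t1 : (l : ℝ) ^ 2 * ((((1 - η) / (1 + ε) ^ 2) * (2 / b)) ^ 2 *
      ((m : ℝ) ^ 2 * ((m : ℝ) ^ 2 - 1) / 12)) ≤
      (m : ℝ) ^ 2 * ((((1 + η) * (1 + ε) / (1 - ε)) * (2 / a)) ^ 2 *
      ((l : ℝ) ^ 2 * ((l : ℝ) ^ 2 - 1) / 12)) := by
    calc _ ≤ (l : ℝ) ^ 2 * VV (fun i => (u (b + i) : ℝ)) m := by gcongr
      _ = (m : ℝ) ^ 2 * VV (fun i => (u (a + i) : ℝ)) l := hV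
      _ ≤ _ := by gcongr
  -- clear denominators
  have t2 : (1 - η) ^ 2 * (1 - ε) ^ 2 * (a : ℝ) ^ 2 * ((m : ℝ) ^ 2 - 1) ≤
      (1 + η) ^ 2 * (1 + ε) ^ 6 * (b : ℝ) ^ 2 * ((l : ℝ) ^ 2 - 1) := by
    have s1 : (l : ℝ) ^ 2 * ((((1 - η) / (1 + ε) ^ 2) * (2 / b)) ^ 2 *
      ((m : ℝ) ^ 2 * ((m : ℝ) ^ 2 - 1) / 12)) =
      ((1 - η) ^ 2 * (1 - ε) ^ 2 * (a : ℝ) ^ 2 * ((m : ℝ) ^ 2 - 1)) *
      ((l : ℝ) ^ 2 * (m : ℝ) ^ 2 / (3 * (1 + ε) ^ 4 * (b : ℝ) ^ 2 * (1 - ε) ^ 2 * (a : ℝ) ^ 2)) := by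
      field_simp
      ring
    have s2 : (m : ℝ) ^ 2 * ((((1 + η) * (1 + ε) / (1 - ε)) * (2 / a)) ^ 2 *
      ((l : ℝ) ^ 2 * ((l : ℝ) ^ 2 - 1) / 12)) =
      ((1 + η) ^ 2 * (1 + ε) ^ 6 * (b : ℝ) ^ 2 * ((l : ℝ) ^ 2 - 1)) *
      ((l : ℝ) ^ 2 * (m : ℝ) ^ 2 / (3 * (1 + ε) ^ 4 * (b : ℝ) ^ 2 * (1 - ε) ^ 2 * (a : ℝ) ^ 2)) := by
      field_simp
      ring
    rw [s1, s2] at t1
    exact le_of_mul_le_mul_right t1 (by positivity)
  have hll : 0 ≤ (l : ℝ) ^ 2 - 1 := by nlinarith only [hl1]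
  have t3 : ((1 - η) ^ 2 * (1 - ε) ^ 3 * (l * ((m : ℝ) ^ 2 - 1))) * (a : ℝ) ^ 2 ≤
      ((1 + η) ^ 2 * (1 + ε) ^ 9 * (m * ((l : ℝ) ^ 2 - 1))) * (a : ℝ) ^ 2 := by
    calc ((1 - η) ^ 2 * (1 - ε) ^ 3 * (l * ((m : ℝ) ^ 2 - 1))) * (a : ℝ) ^ 2 =
        ((1 - η) ^ 2 * (1 - ε) ^ 2 * (a : ℝ) ^ 2 * ((m : ℝ) ^ 2 - 1)) * (l * (1 - ε)) := by ring
      _ ≤ ((1 + η) ^ 2 * (1 + ε) ^ 6 * (b : ℝ) ^ 2 * ((l : ℝ) ^ 2 - 1)) * (l * (1 - ε)) :=
          mul_le_mul_of_nonneg_right t2 (by positivity)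
      _ = ((1 + η) ^ 2 * (1 + ε) ^ 6 * ((l : ℝ) ^ 2 - 1)) * (l * (1 - ε) * (b : ℝ) ^ 2) := by ring
      _ ≤ ((1 + η) ^ 2 * (1 + ε) ^ 6 * ((l : ℝ) ^ 2 - 1)) * (m * (1 + ε) ^ 3 * (a : ℝ) ^ 2) :=
          mul_le_mul_of_nonneg_left hs7 (by positivity)
      _ = _ := by ring
  have t4 := le_of_mul_le_mul_right t3 (by positivity)
  have t5 : (1 + 1 / (M : ℝ)) * (m * ((l : ℝ) ^ 2 - 1)) ≤ l * ((m : ℝ) ^ 2 - 1) := by
    have e1 : 1 / (M : ℝ) * (m * ((l : ℝ) ^ 2 - 1)) ≤ m * l := by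
      rw [div_mul_eq_mul_div, one_mul, div_le_iff₀ hM0]
      have : (l : ℝ) ^ 2 - 1 ≤ l * M := by nlinarith only [hl1, hlm1, hmM']
      calc m * ((l : ℝ) ^ 2 - 1) ≤ m * (l * M) := by gcongr
        _ = m * l * M := by ring
    have e2 : (m : ℝ) * ((l : ℝ) ^ 2 - 1) + m * l ≤ l * ((m : ℝ) ^ 2 - 1) := by
      have e3 : l * ((m : ℝ) ^ 2 - 1) - m * ((l : ℝ) ^ 2 - 1) = (m - l) * (m * l + 1) := by ring
      have e4 : 1 * ((m : ℝ) * l + 1) ≤ (m - l) * (m * l + 1) :=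
        mul_le_mul_of_nonneg_right (by linarith only [hlm1]) (by positivity)
      linarith only [e3, e4]
    calc (1 + 1 / (M : ℝ)) * (m * ((l : ℝ) ^ 2 - 1)) =
        m * ((l : ℝ) ^ 2 - 1) + 1 / (M : ℝ) * (m * ((l : ℝ) ^ 2 - 1)) := by ring
      _ ≤ m * ((l : ℝ) ^ 2 - 1) + m * l := by linarith only [e1]
      _ ≤ _ := e2
  have hm1 : 0 < (m : ℝ) ^ 2 - 1 := by nlinarith only [hl1, hlm1]
  have hη2 : 0 < (1 - η) ^ 2 * (1 - ε) ^ 3 := by
    have : 0 < 1 - η := by linarith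
    positivity
  rcases hll.eq_or_lt with h0 | h0
  · rw [← h0, mul_zero, mul_zero] at t4
    have : 0 < (1 - η) ^ 2 * (1 - ε) ^ 3 * (l * ((m : ℝ) ^ 2 - 1)) := by positivity
    linarith
  · have hX : 0 < (m : ℝ) * ((l : ℝ) ^ 2 - 1) := by positivity
    have t6 : (1 + η) ^ 2 * (1 + ε) ^ 9 * (m * ((l : ℝ) ^ 2 - 1)) <
        ((1 + 1 / (M : ℝ)) * (1 - η) ^ 2 * (1 - ε) ^ 3) * (m * ((l : ℝ) ^ 2 - 1)) :=
      mul_lt_mul_of_pos_right hch hX
    have t7 : ((1 + 1 / (M : ℝ)) * (1 - η) ^ 2 * (1 - ε) ^ 3) * (m * ((l : ℝ) ^ 2 - 1)) =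
        (1 - η) ^ 2 * (1 - ε) ^ 3 * ((1 + 1 / (M : ℝ)) * (m * ((l : ℝ) ^ 2 - 1))) := by ring
    have t8 := mul_le_mul_of_nonneg_left t5 hη2.le
    linarith

end MP372cb0
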