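import Pool.Agent.Lib.MP_372cb0_nt.Gap

/-!
# MP_372cb0_nt: reduction to two disjoint blocks, rigidity
-/

set_option autoImplicit false

namespace MP372cb0

open Finset Filter Topology

/-- a pair of different intervals (with `j ≤ s`) whose sums have the same fractional part -/
def Cex (j k s t : ℕ) : Prop :=
  1 < j ∧ j ≤ k ∧ j ≤ s ∧ s ≤ t ∧ (j, k) ≠ (s, t) ∧ Int.fract (S j k) = Int.fract (S s t)

/-- the first block without the common indices is `[j, fin1)` -/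
def fin1 (k s : ℕ) : ℕ := min s (k + 1)

/-- the second block without the common indices is `[ini2, t]` -/
def ini2 (k s : ℕ) : ℕ := max s (k + 1)

lemma S_Ico (j k : ℕ) : S j k = ∑ i ∈ Finset.Ico j (k + 1), 1 / (u i : ℚ) := by
  unfold S
  congr 1

lemma uq_pos {i : ℕ} (h : 2 ≤ i) : (0 : ℚ) < 1 / (u i : ℚ) := by
  have : (0 : ℚ) < u i := by exact_mod_cast u_pos h
  positivity

lemma S_nonneg {j : ℕ} (hj : 2 ≤ j) (k : ℕ) : 0 ≤ S j k := by
  unfold S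
  exact Finset.sum_nonneg fun i hi => (uq_pos (hj.trans (Finset.mem_Icc.1 hi).1)).le

/-- equal sums over different intervals: the two reduced blocks -/
lemma reduce_sum {j k s t : ℕ} (hj : 1 < j) (hjk : j ≤ k) (hjs : j ≤ s) (hst : s ≤ t)
    (hne : (j, k) ≠ (s, t)) (h : S j k = S s t) :
    j < fin1 k s ∧ fin1 k s ≤ ini2 k s ∧ ini2 k s ≤ t ∧
      ∑ i ∈ Finset.Ico j (fin1 k s), 1 / (u i : ℚ) =
        ∑ i ∈ Finset.Ico (ini2 k s) (t + 1), 1 / (u i : ℚ) := by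
  have hpos : ∀ a b : ℕ, 2 ≤ a → a < b → 0 < ∑ i ∈ Finset.Ico a b, 1 / (u i : ℚ) := by
    intro a b ha hab
    exact Finset.sum_pos (fun i hi => uq_pos (ha.trans (Finset.mem_Ico.1 hi).1))
      ⟨a, Finset.mem_Ico.2 ⟨le_rfl, hab⟩⟩
  rw [S_Ico, S_Ico] at h
  unfold fin1 ini2
  rcases le_total s (k + 1) with hs | hs
  · rw [min_eq_left hs, max_eq_right hs]
    have h1 := Finset.sum_Ico_consecutive (fun i => 1 / (u i : ℚ)) hjs hs
    by_cases htk : t ≤ k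
    · -- impossible
      exfalso
      have h2 := Finset.sum_Ico_consecutive (fun i => 1 / (u i : ℚ)) (show s ≤ t + 1 by omega)
        (show t + 1 ≤ k + 1 by omega)
      have h3 : 0 ≤ ∑ i ∈ Finset.Ico j s, 1 / (u i : ℚ) :=
        Finset.sum_nonneg fun i hi => (uq_pos (hj.trans_le (Finset.mem_Ico.1 hi).1)).le
      have h4 : 0 ≤ ∑ i ∈ Finset.Ico (t + 1) (k + 1), 1 / (u i : ℚ) :=
        Finset.sum_nonneg fun i hi => (uq_pos (by have := (Finset.mem_Ico.1 hi).1; omega)).le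
      have h5 : j = s := by
        by_contra hc
        have := hpos j s hj (by omega)
        linarith
      have h6 : k = t := by
        by_contra hc
        have := hpos (t + 1) (k + 1) (by omega) (by omega)
        linarith
      exact hne (by rw [h5, h6])
    · have h2 := Finset.sum_Ico_consecutive (fun i => 1 / (u i : ℚ)) hs
        (show k + 1 ≤ t + 1 by omega)
      have h3 : ∑ i ∈ Finset.Ico j s, 1 / (u i : ℚ) =
          ∑ i ∈ Finset.Ico (k + 1) (t + 1), 1 / (u i : ℚ) := by linarith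
      refine ⟨?_, hs, by omega, h3⟩
      by_contra hc
      have h4 : j = s := by omega
      subst h4
      rw [Finset.Ico_self, Finset.sum_empty] at h3
      have := hpos (k + 1) (t + 1) (by omega) (by omega)
      linarith
  · rw [min_eq_right hs, max_eq_left hs]
    exact ⟨by omega, by omega, hst, h⟩

/-- real form with ranges -/
lemma block_real (a b : ℕ) :
    ((∑ i ∈ Finset.Ico a b, 1 / (u i : ℚ) : ℚ) : ℝ) = ∑ i ∈ range (b - a), 1 / (u (a + i) : ℝ) := by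
  rw [Finset.sum_Ico_eq_sum_range]
  push_cast
  rfl

/-- the reduced blocks of a pair with large `j` -/
lemma reduce : ∃ N : ℕ, 2 ≤ N ∧ ∀ j k s t : ℕ, N ≤ j → Cex j k s t →
    j < fin1 k s ∧ fin1 k s ≤ ini2 k s ∧ ini2 k s ≤ t ∧
      fin1 k s - j ≤ t + 1 - ini2 k s ∧
      ∑ i ∈ range (fin1 k s - j), 1 / (u (j + i) : ℝ) =
        ∑ i ∈ range (t + 1 - ini2 k s), 1 / (u (ini2 k s + i) : ℝ) := by
  obtain ⟨N, hN⟩ := tail_lt
  refine ⟨max N 2, le_max_right _ _, fun j k s t hj h => ?_⟩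
  obtain ⟨h1, hjk, hjs, hst, hne, hf⟩ := h
  have e1 : S j k = S s t := by
    have hjN : N ≤ j := le_trans (le_max_left _ _) hj
    have a1 := hN j hjN k
    have a2 := hN s (hjN.trans hjs) t
    rwa [Int.fract_eq_self.2 ⟨S_nonneg (by omega) k, a1⟩,
      Int.fract_eq_self.2 ⟨S_nonneg (by omega) t, a2⟩] at hf
  obtain ⟨b1, b2, b3, b4⟩ := reduce_sum h1 hjk hjs hst hne e1
  have b5 : ((∑ i ∈ Finset.Ico j (fin1 k s), 1 / (u i : ℚ) : ℚ) : ℝ) =
      ((∑ i ∈ Finset.Ico (ini2 k s) (t + 1), 1 / (u i : ℚ) : ℚ) : ℝ) := by rw [b4]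
  rw [block_real, block_real] at b5
  refine ⟨b1, b2, b3, ?_, b5⟩
  -- lengths
  set f := fin1 k s
  set g := ini2 k s
  have hu0 : (0 : ℝ) < u g := by exact_mod_cast u_pos (by omega)
  have hu1 : (0 : ℝ) < u j := by exact_mod_cast u_pos (by omega)
  have c1 : ((f - j : ℕ) : ℝ) * (1 / (u g : ℝ)) ≤ ∑ i ∈ range (f - j), 1 / (u (j + i) : ℝ) := by
    have : ∑ i ∈ range (f - j), (1 / (u g : ℝ)) ≤ ∑ i ∈ range (f - j), 1 / (u (j + i) : ℝ) := by
      refine Finset.sum_le_sum fun i hi => ?_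
      rw [mem_range] at hi
      apply one_div_le_one_div_of_le
      · exact_mod_cast u_pos (by omega)
      · exact_mod_cast u_mono (by omega)
    simpa using this
  have c2 : ∑ i ∈ range (t + 1 - g), 1 / (u (g + i) : ℝ) ≤ ((t + 1 - g : ℕ) : ℝ) * (1 / (u g : ℝ)) := by
    have : ∑ i ∈ range (t + 1 - g), 1 / (u (g + i) : ℝ) ≤ ∑ i ∈ range (t + 1 - g), (1 / (u g : ℝ)) := by
      refine Finset.sum_le_sum fun i _ => ?_
      apply one_div_le_one_div_of_le hu0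
      exact_mod_cast u_mono (by omega)
    simpa using this
  have c3 : ((f - j : ℕ) : ℝ) * (1 / (u g : ℝ)) ≤ ((t + 1 - g : ℕ) : ℝ) * (1 / (u g : ℝ)) := by
    linarith
  have c4 := le_of_mul_le_mul_right c3 (by positivity)
  exact_mod_cast c4

/-- equal lengths: no prime between -/
lemma equal_len {a b n : ℕ} (ha : 2 ≤ a) (hn : 1 ≤ n) (hab : a + n ≤ b)
    (h : ∑ i ∈ range n, 1 / (u (a + i) : ℝ) = ∑ i ∈ range n, 1 / (u (b + i) : ℝ)) :
    u a = u (b + n - 1) := by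
  have hle : ∀ i ∈ range n, 1 / (u (b + i) : ℝ) ≤ 1 / (u (a + i) : ℝ) := by
    intro i hi
    rw [mem_range] at hi
    apply one_div_le_one_div_of_le
    · exact_mod_cast u_pos (by omega)
    · exact_mod_cast u_mono (by omega)
  have h1 := (Finset.sum_eq_sum_iff_of_le hle).1 h.symm
  have hx : ∀ i < n, u (a + i) = u (b + i) := by
    intro i hi
    have h2 := h1 i (mem_range.2 hi)
    have p1 : (0 : ℝ) < u (a + i) := by exact_mod_cast u_pos (by omega)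
    have p2 : (0 : ℝ) < u (b + i) := by exact_mod_cast u_pos (by omega)
    have h3 : (u (b + i) : ℝ) = u (a + i) := by
      field_simp at h2
      linarith
    exact_mod_cast h3.symm
  -- u a ≤ u (a + n - 1) ≤ u b = u a
  have e0 := hx 0 (by omega)
  have e1 := hx (n - 1) (by omega)
  have e2 : u (a + (n - 1)) ≤ u (b + 0) := u_mono (by omega)
  have e3 : u (a + 0) ≤ u (a + (n - 1)) := u_mono (by omega)
  have e4 : b + n - 1 = b + (n - 1) := by omega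
  rw [e4, ← e1]
  simp only [add_zero] at e0 e2 e3
  omega

/-- the rigidity theorem for two blocks -/
lemma rigid : ∃ c0 : ℝ, 0 < c0 ∧ ∃ N : ℕ, 2 ≤ N ∧ ∀ a b l m : ℕ, N ≤ a → a ≤ b → 1 ≤ l → l ≤ m →
    ((l : ℝ) ^ 2 * (m : ℝ) ^ 3 ≤ c0 * Real.log a) →
    ∑ i ∈ range l, 1 / (u (a + i) : ℝ) = ∑ i ∈ range m, 1 / (u (b + i) : ℝ) →
    (l ^ 2 * ∑ i ∈ range m, u (b + i) = m ^ 2 * ∑ i ∈ range l, u (a + i) ∧
      (l : ℝ) ^ 2 * VV (fun i => (u (b + i) : ℝ)) m =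
        (m : ℝ) ^ 2 * VV (fun i => (u (a + i) : ℝ)) l) := by
  obtain ⟨c0, hc0, N, hN2, hblock⟩ := block_bound
  refine ⟨c0, hc0, N, hN2, fun a b l m ha hab hl hlm hc heq => ?_⟩
  have hl1 : (1 : ℝ) ≤ l := by exact_mod_cast hl
  have hlm' : (l : ℝ) ≤ m := by exact_mod_cast hlm
  have ha0 : (0 : ℝ) < a := by exact_mod_cast (by omega : 0 < a)
  have hab' : (a : ℝ) ≤ b := by exact_mod_cast hab
  have hlog : Real.log a ≤ Real.log b := Real.log_le_log ha0 hab'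
  have q1 : (l : ℝ) ^ 2 * (m : ℝ) ^ 3 ≤ c0 * Real.log b :=
    hc.trans (mul_le_mul_of_nonneg_left hlog hc0.le)
  have q2 : (m : ℝ) ^ 2 * (l : ℝ) ^ 3 ≤ c0 * Real.log a := by
    refine le_trans ?_ hc
    have : (m : ℝ) ^ 2 * (l : ℝ) ^ 3 = (l : ℝ) ^ 2 * (m : ℝ) ^ 2 * l := by ring
    rw [this]
    have : (l : ℝ) ^ 2 * (m : ℝ) ^ 3 = (l : ℝ) ^ 2 * (m : ℝ) ^ 2 * m := by ring
    rw [this]
    gcongr
  have r2 := hblock b (ha.trans hab) m l (by omega) hl q1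
  have r1 := hblock a ha l m hl (by omega) q2
  have p1 : ∀ i < l, (0 : ℝ) < (fun i => (u (a + i) : ℝ)) i := by
    intro i _
    change (0 : ℝ) < (u (a + i) : ℝ)
    exact_mod_cast u_pos (by omega)
  have p2 : ∀ i < m, (0 : ℝ) < (fun i => (u (b + i) : ℝ)) i := by
    intro i _
    change (0 : ℝ) < (u (b + i) : ℝ)
    exact_mod_cast u_pos (by omega)
  have i1 := VV_id _ l p1
  have i2 := VV_id _ m p2
  have n1 := VV_nonneg _ l p1
  have n2 := VV_nonneg _ m p2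
  rw [← heq] at i2 r2
  set R := ∑ i ∈ range l, 1 / (u (a + i) : ℝ) with hR
  set V1 := VV (fun i => (u (a + i) : ℝ)) l
  set V2 := VV (fun i => (u (b + i) : ℝ)) m
  set U1 := ∑ i ∈ range l, (u (a + i) : ℝ) with hU1
  set U2 := ∑ i ∈ range m, (u (b + i) : ℝ) with hU2
  have hR0 : 0 < R := by
    refine lt_of_le_of_lt ?_ r1
    positivity
  have hD : ((l : ℝ) ^ 2 * U2 - (m : ℝ) ^ 2 * U1) * R = (l : ℝ) ^ 2 * V2 - (m : ℝ) ^ 2 * V1 := by
    calc ((l : ℝ) ^ 2 * U2 - (m : ℝ) ^ 2 * U1) * R =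
        (l : ℝ) ^ 2 * (U2 * R) - (m : ℝ) ^ 2 * (U1 * R) := by ring
      _ = _ := by rw [i1, i2]; ring
  have hlV : 0 ≤ (l : ℝ) ^ 2 * V2 := by positivity
  have hmV : 0 ≤ (m : ℝ) ^ 2 * V1 := by positivity
  have hlt1 : ((l : ℝ) ^ 2 * U2 - (m : ℝ) ^ 2 * U1) < 1 := by
    by_contra hcon
    push Not at hcon
    have : R ≤ ((l : ℝ) ^ 2 * U2 - (m : ℝ) ^ 2 * U1) * R := by nlinarith
    linarith
  have hlt2 : -1 < ((l : ℝ) ^ 2 * U2 - (m : ℝ) ^ 2 * U1) := by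
    by_contra hcon
    push Not at hcon
    have : ((l : ℝ) ^ 2 * U2 - (m : ℝ) ^ 2 * U1) * R ≤ -R := by nlinarith
    linarith
  have hint : ((l : ℤ) ^ 2 * ∑ i ∈ range m, (u (b + i) : ℤ) - (m : ℤ) ^ 2 * ∑ i ∈ range l, (u (a + i) : ℤ)) = 0 := by
    have c1 : (((l : ℤ) ^ 2 * ∑ i ∈ range m, (u (b + i) : ℤ) -
        (m : ℤ) ^ 2 * ∑ i ∈ range l, (u (a + i) : ℤ) : ℤ) : ℝ) < 1 := by
      push_cast; exact hlt1
    have c2 : -1 < (((l : ℤ) ^ 2 * ∑ i ∈ range m, (u (b + i) : ℤ) -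
        (m : ℤ) ^ 2 * ∑ i ∈ range l, (u (a + i) : ℤ) : ℤ) : ℝ) := by
      push_cast; exact hlt2
    have c1' : ((l : ℤ) ^ 2 * ∑ i ∈ range m, (u (b + i) : ℤ) -
        (m : ℤ) ^ 2 * ∑ i ∈ range l, (u (a + i) : ℤ)) < 1 := by exact_mod_cast c1
    have c2' : -1 < ((l : ℤ) ^ 2 * ∑ i ∈ range m, (u (b + i) : ℤ) -
        (m : ℤ) ^ 2 * ∑ i ∈ range l, (u (a + i) : ℤ)) := by exact_mod_cast c2
    omega
  have hint2 : (l : ℤ) ^ 2 * ∑ i ∈ range m, (u (b + i) : ℤ) =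
      (m : ℤ) ^ 2 * ∑ i ∈ range l, (u (a + i) : ℤ) := by linarith
  have hnat : l ^ 2 * ∑ i ∈ range m, u (b + i) = m ^ 2 * ∑ i ∈ range l, u (a + i) := by
    exact_mod_cast hint2
  refine ⟨hnat, ?_⟩
  have hreal : (l : ℝ) ^ 2 * U2 = (m : ℝ) ^ 2 * U1 := by
    rw [hU1, hU2]; exact_mod_cast hnat
  have : (0 : ℝ) = (l : ℝ) ^ 2 * V2 - (m : ℝ) ^ 2 * V1 := by
    rw [← hD, hreal]; ring
  linarith

end MP372cb0
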